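import Pool.Agent.Lib.MP_d4a354_an.Main

/-!
# Continuum many beta-expansions with prescribed digit frequencies

For every non-integer `β > 1` and all vectors of upper and lower digit frequencies, almost every
`x ∈ I_β` has a `β`-expansion with these frequencies if and only if almost every `x ∈ I_β` has
exactly a continuum of such expansions.
-/

open MeasureTheory Filter

namespace Pool.Agent.Results.MP_d4a354_an.ContinuumFreq

/-- The digit alphabet `{0, 1, …, ⌊β⌋}` of base `β`. -/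
abbrev Digit (β : ℝ) : Type := Fin (⌊β⌋₊ + 1)

/-- The interval `I_β = [0, ⌊β⌋ / (β - 1)]`. -/
def I (β : ℝ) : Set ℝ := Set.Icc 0 ((⌊β⌋₊ : ℝ) / (β - 1))

/-- `ε` is a `β`-expansion of `x`: `x = ∑_{i ≥ 0} ε_i β^{-(i+1)}` (the digit with index `i` is the
`(i+1)`-st digit). -/
def IsExpansion (β : ℝ) (ε : ℕ → Digit β) (x : ℝ) : Prop :=
  HasSum (fun i : ℕ => ((ε i : ℕ) : ℝ) / β ^ (i + 1)) x

/-- The number of occurrences of the digit `k` among the first `n` digits of `ε`. -/
noncomputable def digitCount {β : ℝ} (ε : ℕ → Digit β) (k : Digit β) (n : ℕ) : ℕ :=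
  ((Finset.range n).filter (fun i => ε i = k)).card

/-- The set `E_β(x; pU, pL)` of all `β`-expansions of `x` in which every digit `k` has upper
frequency `pU k` and lower frequency `pL k`. -/
def E (β : ℝ) (pU pL : Digit β → ℝ) (x : ℝ) : Set (ℕ → Digit β) :=
  {ε | IsExpansion β ε x ∧ ∀ k : Digit β,
    limsup (fun n : ℕ => (digitCount ε k n : ℝ) / n) atTop = pU k ∧
    liminf (fun n : ℕ => (digitCount ε k n : ℝ) / n) atTop = pL k}

theorem result (β : ℝ) (hβ : 1 < β) (hβ' : ∀ n : ℕ, β ≠ n) (pU pL : Digit β → ℝ) :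
    (∀ᵐ x ∂(volume.restrict (I β)), (E β pU pL x).Nonempty) ↔
      (∀ᵐ x ∂(volume.restrict (I β)), Cardinal.mk (E β pU pL x) = Cardinal.continuum) := by
  have h0 : (0:ℝ) ≤ β := by linarith
  have hm1 : 1 ≤ ⌊β⌋₊ := by
    rw [Nat.one_le_floor_iff]; exact hβ.le
  have hfl : (⌊β⌋₊ : ℝ) ≤ β := Nat.floor_le h0
  have hfl' : β < (⌊β⌋₊ : ℝ) + 1 := Nat.lt_floor_add_one β
  have hne : (⌊β⌋₊ : ℝ) ≠ β := fun h => hβ' _ h.symm
  have hb1 : (0:ℝ) < β - 1 := by linarith
  have hpar : Pool.Agent.Lib.MP_d4a354_an.Par β ((⌊β⌋₊ : ℝ) / (β - 1)) ⌊β⌋₊ := by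
    refine ⟨hβ, ?_, hm1, hfl', ?_⟩
    · rw [one_lt_div hb1]; linarith
    · field_simp
      ring
  constructor
  · intro hE
    have hE' : Pool.Agent.Lib.MP_d4a354_an.AEHas β ((⌊β⌋₊ : ℝ) / (β - 1)) pU pL := by
      unfold Pool.Agent.Lib.MP_d4a354_an.AEHas
      filter_upwards [hE] with x hx
      obtain ⟨ε, h1, h2⟩ := hx
      exact ⟨ε, h1, h2⟩
    have hmain := Pool.Agent.Lib.MP_d4a354_an.main hpar hE'
    filter_upwards [hmain] with x hx
    obtain ⟨f, hf, hf2⟩ := hx
    apply le_antisymm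
    · calc Cardinal.mk (E β pU pL x) ≤ Cardinal.mk (ℕ → Digit β) := Cardinal.mk_set_le _
        _ = (Cardinal.mk (Digit β)) ^ (Cardinal.mk ℕ) := by simp
        _ ≤ Cardinal.aleph0 ^ Cardinal.aleph0 := by
            have h1 : Cardinal.mk (Digit β) ≤ Cardinal.aleph0 := Cardinal.mk_le_aleph0
            rw [Cardinal.mk_nat]
            exact Cardinal.power_le_power_right h1
        _ = Cardinal.continuum := Cardinal.aleph0_power_aleph0
    · have hinj : Function.Injective (fun s : ℕ → Bool =>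
          (⟨f s, (hf2 s).1, (hf2 s).2⟩ : E β pU pL x)) := by
        intro s s' hss
        apply hf
        exact congrArg Subtype.val hss
      have := Cardinal.mk_le_of_injective hinj
      calc Cardinal.continuum = Cardinal.mk (ℕ → Bool) := by simp
        _ ≤ Cardinal.mk (E β pU pL x) := this
  · intro hE
    filter_upwards [hE] with x hx
    by_contra hcon
    haveI : IsEmpty (E β pU pL x) := Set.isEmpty_coe_sort.mpr (Set.not_nonempty_iff_eq_empty.mp hcon)
    rw [Cardinal.mk_eq_zero] at hx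
    exact Cardinal.continuum_ne_zero hx.symm

end Pool.Agent.Results.MP_d4a354_an.ContinuumFreq
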